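import Pool.Agent.Helper89.TQ.Spec

/-!
MP_5465ec_co, Q2, part BRIDGE: from complete simple games to rows.
-/

set_option autoImplicit false

namespace Pool.Agent.Helper73.TQ.BRIDGE

open Finset Pool.Agent.R6.Trade Pool.Agent.Helper89.TQ

variable {N : Type} [Fintype N] [DecidableEq N]

omit [Fintype N] in
lemma vec_insert (τ : N → Fin 3) {S : Finset N} {u : N} (hu : u ∉ S) (k : Fin 3) :
    vec τ (insert u S) k = vec τ S k + if τ u = k then 1 else 0 := by
  unfold vec
  rw [filter_insert]
  split_ifs with h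
  · rw [card_insert_of_notMem]
    simp [hu]
  · rfl

omit [Fintype N] in
lemma vec_erase (τ : N → Fin 3) {S : Finset N} {v : N} (hv : v ∈ S) (k : Fin 3) :
    vec τ (S.erase v) k + (if τ v = k then 1 else 0) = vec τ S k := by
  have h := vec_insert τ (S := S.erase v) (u := v) (by simp) k
  rw [insert_erase hv] at h
  exact h.symm

lemma vec_le (τ : N → Fin 3) (S : Finset N) (k : Fin 3) : vec τ S k ≤ nn τ k :=
  card_le_card (filter_subset_filter _ (subset_univ _))

lemma exists_out (τ : N → Fin 3) {S : Finset N} {k : Fin 3} (h : vec τ S k < nn τ k) :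
    ∃ u, u ∉ S ∧ τ u = k := by
  by_contra hcon
  push Not at hcon
  have : nn τ k ≤ vec τ S k := by
    apply card_le_card
    intro u hu
    rw [mem_filter] at hu ⊢
    refine ⟨?_, hu.2⟩
    by_contra hS
    exact hcon u hS hu.2
  omega

omit [Fintype N] in
lemma exists_in (τ : N → Fin 3) {S : Finset N} {k : Fin 3} (h : 0 < vec τ S k) :
    ∃ v, v ∈ S ∧ τ v = k := by
  obtain ⟨v, hv⟩ := card_pos.1 h
  rw [mem_filter] at hv
  exact ⟨v, hv⟩

omit [Fintype N] in
lemma swap {W : Finset N → Prop} {S : Finset N} {u v : N} (h : AtLeast W u v) (hu : u ∉ S)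
    (hv : v ∈ S) (hW : W S) : W (insert u (S.erase v)) := by
  apply h
  · simp [hu]
  · simp
  · rwa [insert_erase hv]

/-- weight of a vector: the sum of the partial sums -/
def ph (x : Fin 3 → ℕ) : ℕ := 3 * x 0 + 2 * x 1 + x 2

/-- a step -/
lemma step (W : Finset N → Prop) (τ : N → Fin 3)
    (hmono : ∀ S T : Finset N, S ⊆ T → W S → W T) (hat : ∀ u v, AtLeast W u v ↔ τ u ≤ τ v)
    (S : Finset N) (hW : W S) (y : Fin 3 → ℕ) (hy : ∀ k, y k ≤ nn τ k)
    (hge : GE y (vec τ S)) (hne : y ≠ vec τ S) :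
    ∃ S', W S' ∧ GE y (vec τ S') ∧ ph (vec τ S) < ph (vec τ S') := by
  obtain ⟨g0, g1, g2⟩ := hge
  have hne' : ¬ (y 0 = vec τ S 0 ∧ y 1 = vec τ S 1 ∧ y 2 = vec τ S 2) := by
    rintro ⟨e0, e1, e2⟩
    apply hne
    funext i
    fin_cases i
    · exact e0
    · exact e1
    · exact e2
  have n0 := hy 0
  have n1 := hy 1
  have n2 := hy 2
  have add : ∀ i : Fin 3, vec τ S i < nn τ i →
      ∃ S', W S' ∧ ∀ k, vec τ S' k = vec τ S k + if i = k then 1 else 0 := by
    intro i hi
    obtain ⟨u, hu, rfl⟩ := exists_out τ hi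
    exact ⟨insert u S, hmono _ _ (subset_insert _ _) hW, fun k => vec_insert τ hu k⟩
  have sw : ∀ i j : Fin 3, i < j → vec τ S i < nn τ i → 0 < vec τ S j →
      ∃ S', W S' ∧ ∀ k, vec τ S' k + (if j = k then 1 else 0) = vec τ S k +
        if i = k then 1 else 0 := by
    intro i j hij hi hj
    obtain ⟨u, hu, rfl⟩ := exists_out τ hi
    obtain ⟨v, hv, rfl⟩ := exists_in τ hj
    refine ⟨insert u (S.erase v), swap ((hat u v).2 hij.le) hu hv hW, fun k => ?_⟩
    have h1 := vec_insert τ (S := S.erase v) (u := u) (by simp [hu]) k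
    have h2 := vec_erase τ hv k
    omega
  by_cases c0 : vec τ S 0 < y 0
  · by_cases c1 : vec τ S 0 + vec τ S 1 = y 0 + y 1
    · obtain ⟨S', hS', h⟩ := sw 0 1 (by decide) (by omega) (by omega)
      have h0 := h 0
      have h1 := h 1
      have h2 := h 2
      simp at h0 h1 h2
      refine ⟨S', hS', ⟨?_, ?_, ?_⟩, ?_⟩ <;> (try unfold ph) <;> omega
    · by_cases c2 : vec τ S 0 + vec τ S 1 + vec τ S 2 = y 0 + y 1 + y 2
      · obtain ⟨S', hS', h⟩ := sw 0 2 (by decide) (by omega) (by omega)
        have h0 := h 0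
        have h1 := h 1
        have h2 := h 2
        simp at h0 h1 h2
        refine ⟨S', hS', ⟨?_, ?_, ?_⟩, ?_⟩ <;> (try unfold ph) <;> omega
      · obtain ⟨S', hS', h⟩ := add 0 (by omega)
        have h0 := h 0
        have h1 := h 1
        have h2 := h 2
        simp at h0 h1 h2
        refine ⟨S', hS', ⟨?_, ?_, ?_⟩, ?_⟩ <;> (try unfold ph) <;> omega
  · by_cases c1 : vec τ S 0 + vec τ S 1 < y 0 + y 1
    · by_cases c2 : vec τ S 0 + vec τ S 1 + vec τ S 2 = y 0 + y 1 + y 2
      · obtain ⟨S', hS', h⟩ := sw 1 2 (by decide) (by omega) (by omega)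
        have h0 := h 0
        have h1 := h 1
        have h2 := h 2
        simp at h0 h1 h2
        refine ⟨S', hS', ⟨?_, ?_, ?_⟩, ?_⟩ <;> (try unfold ph) <;> omega
      · obtain ⟨S', hS', h⟩ := add 1 (by omega)
        have h0 := h 0
        have h1 := h 1
        have h2 := h 2
        simp at h0 h1 h2
        refine ⟨S', hS', ⟨?_, ?_, ?_⟩, ?_⟩ <;> (try unfold ph) <;> omega
    · obtain ⟨S', hS', h⟩ := add 2 (by omega)
      have h0 := h 0
      have h1 := h 1
      have h2 := h 2
      simp at h0 h1 h2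
      refine ⟨S', hS', ⟨?_, ?_, ?_⟩, ?_⟩ <;> (try unfold ph) <;> omega

lemma ph_le {x y : Fin 3 → ℕ} (h : GE y x) : ph x ≤ ph y := by
  obtain ⟨g0, g1, g2⟩ := h
  unfold ph
  omega

lemma eq_of_ph {x y : Fin 3 → ℕ} (h : GE y x) (hp : ph y ≤ ph x) : x = y := by
  obtain ⟨g0, g1, g2⟩ := h
  unfold ph at hp
  funext i
  fin_cases i
  · change x 0 = y 0; omega
  · change x 1 = y 1; omega
  · change x 2 = y 2; omega

lemma ge_trans {x y z : Fin 3 → ℕ} (h : GE z y) (h' : GE y x) : GE z x := by
  obtain ⟨g0, g1, g2⟩ := h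
  obtain ⟨k0, k1, k2⟩ := h'
  exact ⟨by omega, by omega, by omega⟩

lemma ge_refl (x : Fin 3 → ℕ) : GE x x := ⟨le_refl _, le_refl _, le_refl _⟩

/-- shift monotonicity -/
lemma shift (W : Finset N → Prop) (τ : N → Fin 3)
    (hmono : ∀ S T : Finset N, S ⊆ T → W S → W T) (hat : ∀ u v, AtLeast W u v ↔ τ u ≤ τ v)
    (T : Finset N) : ∀ (m : ℕ) (S : Finset N), W S → GE (vec τ T) (vec τ S) →
      ph (vec τ T) - ph (vec τ S) = m → W T := by
  intro m
  induction m using Nat.strong_induction_on with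
  | _ m ih =>
    intro S hW hge hm
    by_cases hne : vec τ T = vec τ S
    · exact win_of_vec_eq hmono τ (fun a b hab => (hat a b).2 hab.le) _ S T rfl hne.symm hW
    · obtain ⟨S', hW', hge', hlt⟩ := step W τ hmono hat S hW (vec τ T) (vec_le τ T) hge hne
      have h1 := ph_le hge'
      exact ih _ (by omega) S' hW' hge' rfl

theorem main : S_BRIDGE := by
  intro N _ _ W τ a b hS hsurj hat hab hmin
  obtain ⟨hW0, hW1, hmono⟩ := hS
  have ha : MinWin W τ a := (hmin a).2 (Or.inl rfl)
  have hb : MinWin W τ b := (hmin b).2 (Or.inr rfl)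
  obtain ⟨⟨Sa, hSa, hva⟩, hamin⟩ := ha
  obtain ⟨⟨Sb, hSb, hvb⟩, hbmin⟩ := hb
  have hWin : ∀ S, W S ↔ Win a b (vec τ S) := by
    intro S
    constructor
    · have key : ∀ (m : ℕ) (S : Finset N), W S → ph (vec τ S) = m → Win a b (vec τ S) := by
        intro m
        induction m using Nat.strong_induction_on with
        | _ m ih =>
          intro S hW hm
          by_cases hM : MinWin W τ (vec τ S)
          · rcases (hmin _).1 hM with h | h
            · left; rw [h]; exact ge_refl _
            · right; rw [h]; exact ge_refl _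
          · unfold MinWin at hM
            push Not at hM
            obtain ⟨S', hW', hge', hne'⟩ := hM ⟨S, hW, rfl⟩
            have h1 := ph_le hge'
            have h2 : ph (vec τ S') < ph (vec τ S) := by
              rcases Nat.lt_or_ge (ph (vec τ S')) (ph (vec τ S)) with h | h
              · exact h
              · exact absurd (eq_of_ph hge' h) hne'
            rcases ih _ (by omega) S' hW' rfl with h | h
            · exact Or.inl (ge_trans hge' h)
            · exact Or.inr (ge_trans hge' h)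
      exact fun hW => key _ S hW rfl
    · rintro (h | h)
      · rw [← hva] at h
        exact shift W τ hmono hat S _ Sa hSa h rfl
      · rw [← hvb] at h
        exact shift W τ hmono hat S _ Sb hSb h rfl
  refine ⟨fun i => by rw [← hva]; exact vec_le τ Sa i, fun i => by rw [← hvb]; exact vec_le τ Sb i,
    ?_, ?_, ?_, ?_, hWin⟩
  · intro h
    rw [← hvb] at h
    exact hab ((hamin Sb hSb h).symm.trans hvb)
  · intro h
    rw [← hva] at h
    exact hab (hva.symm.trans (hbmin Sa hSa h))
  · obtain ⟨u, hu⟩ := hsurj 0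
    obtain ⟨v, hv⟩ := hsurj 1
    have hnot : ¬ AtLeast W v u := by
      rw [hat, hu, hv]; decide
    unfold AtLeast at hnot
    push Not at hnot
    obtain ⟨S, hvS, huS, hWu, hWv⟩ := hnot
    have e1 := vec_insert τ huS
    have e2 := vec_insert τ hvS
    have a0 := e1 0
    have a1 := e1 1
    have a2 := e1 2
    have b0 := e2 0
    have b1 := e2 1
    have b2 := e2 2
    rw [hu] at a0 a1 a2
    rw [hv] at b0 b1 b2
    simp at a0 a1 a2 b0 b1 b2
    have hle := vec_le τ (insert v S) 1
    rw [hWin] at hWu hWv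
    unfold Win GE at hWu hWv
    omega
  · obtain ⟨u, hu⟩ := hsurj 1
    obtain ⟨v, hv⟩ := hsurj 2
    have hnot : ¬ AtLeast W v u := by
      rw [hat, hu, hv]; decide
    unfold AtLeast at hnot
    push Not at hnot
    obtain ⟨S, hvS, huS, hWu, hWv⟩ := hnot
    have e1 := vec_insert τ huS
    have e2 := vec_insert τ hvS
    have a0 := e1 0
    have a1 := e1 1
    have a2 := e1 2
    have b0 := e2 0
    have b1 := e2 1
    have b2 := e2 2
    rw [hu] at a0 a1 a2
    rw [hv] at b0 b1 b2
    simp at a0 a1 a2 b0 b1 b2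
    have hle := vec_le τ (insert v S) 2
    rw [hWin] at hWu hWv
    unfold Win GE at hWu hWv
    omega

end Pool.Agent.Helper73.TQ.BRIDGE

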